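import Pool.Agent.helper36.PP.SpecM

set_option autoImplicit false

open Complex Metric Set Filter Topology MeasureTheory MPS MQ Pool.Agent.helper98.ILF

noncomputable section

namespace PPS

lemma ROW_fd_ae (f : Polynomial ℂ) (hf : 2 ≤ f.natDegree) : ∀ᵐ z : ℂ, fd f z ≠ 0 := by
  have hd : f.derivative ≠ 0 := by
    intro h
    have h1 := Polynomial.natDegree_eq_zero_of_derivative_eq_zero h
    omega
  have hfin : {z : ℂ | fd f z = 0}.Finite := by
    refine Set.Finite.subset (f.derivative.roots.toFinset.finite_toSet) ?_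
    intro z hz
    simp only [Finset.mem_coe, Multiset.mem_toFinset]
    rw [Polynomial.mem_roots hd]
    exact hz
  have h0 : volume {z : ℂ | fd f z = 0} = 0 := hfin.measure_zero volume
  rw [ae_iff]
  simpa using h0

lemma ROW_inv (f : Polynomial ℂ) (A : ℝ) (hA : ∀ y : ℂ, ‖f.eval y‖ < A → ‖y‖ < A) :
    ∀ (m : ℕ) (z : ℂ), ‖it f m z‖ < A → ‖z‖ < A := by
  intro m
  induction m with
  | zero => intro z h; simpa [it] using h
  | succ m ih =>
    intro z h
    have h1 : it f (m + 1) z = it f m (f.eval z) := by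
      unfold it
      rw [Function.iterate_succ_apply]
    rw [h1] at h
    exact hA z (ih _ h)

theorem ROW (hBF : BF_stmt) (hPU : PU_stmt) : ROW_stmt := by
  intro f A r x c₀ c₁ M hf hA hr hcl hwd
  obtain ⟨b1, b2, b3, b4⟩ := hBF x r c₀ c₁ hr
  set C : ℝ := (‖c₀‖ + ‖c₁‖ * r) / r with hC
  have hC0 : 0 ≤ C := by rw [hC]; positivity
  have hD : 0 < 1 + ((M : ℝ) + 1) * C := by positivity
  set s : ℝ := 1 / (1 + ((M : ℝ) + 1) * C) with hs
  have hs0 : 0 < s := by rw [hs]; positivity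
  have hsM : ((M : ℝ) + 1) * (s * C) ≤ 1 := by
    have : ((M : ℝ) + 1) * (s * C) = (((M : ℝ) + 1) * C) / (1 + ((M : ℝ) + 1) * C) := by
      rw [hs]; ring
    rw [this, div_le_one hD]
    linarith
  have hsC0 : 0 ≤ s * C := by positivity
  have hsC : s * C ≤ 1 := by
    have hM0 : (0 : ℝ) ≤ (M : ℝ) * (s * C) := by positivity
    nlinarith
  have hMs : (M : ℝ) * (s * C) ≤ 1 := by nlinarith
  set β : ℂ → ℂ := fun z => (s : ℂ) * bF x r c₀ c₁ z with hβ
  have hβm : Measurable β := measurable_const.mul b1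
  have hβb : ∀ z, ‖β z‖ ≤ s * C := by
    intro z
    simp only [hβ]
    rw [norm_mul, Complex.norm_real, Real.norm_eq_abs, abs_of_pos hs0]
    exact mul_le_mul_of_nonneg_left (b2 z) hs0.le
  have hβW : ∀ z, β z ≠ 0 → z ∈ {z : ℂ | r / 2 < ‖z - x‖ ∧ ‖z - x‖ < r} := by
    intro z hz
    by_contra hcon
    apply hz
    simp only [hβ]
    have : bF x r c₀ c₁ z = 0 := by
      unfold bF
      rw [if_neg]
      exact hcon
    rw [this, mul_zero]
  have hWA : ∀ z ∈ {z : ℂ | r / 2 < ‖z - x‖ ∧ ‖z - x‖ < r}, ‖z‖ < A := by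
    intro z hz
    have h1 : z ∈ closedBall x r := by
      rw [mem_closedBall, dist_eq_norm]
      exact hz.2.le
    have h2 := hcl h1
    rwa [mem_ball_zero_iff] at h2
  have hWW : ∀ z ∈ {z : ℂ | r / 2 < ‖z - x‖ ∧ ‖z - x‖ < r}, ∀ m, M ≤ m →
      it f m z ∉ {z : ℂ | r / 2 < ‖z - x‖ ∧ ‖z - x‖ < r} := by
    intro z hz m hm
    exact hwd z hz.1 hz.2 m hm
  obtain ⟨p1, p2, p3, p4⟩ := hPU f β {z : ℂ | r / 2 < ‖z - x‖ ∧ ‖z - x‖ < r} M (s * C)
    (by omega) hβm hβb hβW hWW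
  refine ⟨s, hs0, pull f β, β, ?_⟩
  have hint : ∀ (g : ℂ → ℂ), ∫ z : ℂ, β z / g z = (s : ℂ) * ∫ z : ℂ, bF x r c₀ c₁ z / g z := by
    intro g
    rw [← integral_const_mul]
    congr 1
    funext z
    simp only [hβ]
    ring
  refine ⟨⟨p1, hβm, ?_, ?_, ?_, ?_, ?_⟩, ?_, ?_, ?_, ?_⟩
  · intro z; exact (p2 z).trans hMs
  · intro z; exact (hβb z).trans hsC
  · intro z hz
    obtain ⟨m, _, hm2⟩ := p4 z hz
    exact ROW_inv f A hA m z (hWA _ hm2)
  · intro z hz
    exact hWA _ (hβW z hz)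
  · filter_upwards [ROW_fd_ae f hf] with z hz
    exact p3 z hz
  · intro z hz; exact hβW z hz
  · intro z hz
    obtain ⟨m, hm1, hm2⟩ := p4 z hz
    exact ⟨m, hm1, hm2.1, hm2.2⟩
  · intro w hw
    have h1 : NLF.CT β w = (s : ℂ) * NLF.CT (bF x r c₀ c₁) w := by
      unfold NLF.CT
      exact hint (fun z => z - w)
    rw [h1, b3 w hw]
  · intro w hw
    obtain ⟨q1, q2⟩ := b4 w hw
    constructor
    · have h1 : NLF.CT β w = (s : ℂ) * NLF.CT (bF x r c₀ c₁) w := by
        unfold NLF.CT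
        exact hint (fun z => z - w)
      rw [h1, q1, mul_zero]
    · rw [hint (fun z => (z - w) ^ 2), q2, mul_zero]

end PPS
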