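import Pool.Agent.helper57.PP.Spec

/-! Row pp:CE (MP_974a61_co). -/

set_option autoImplicit false

namespace Pool.Agent.helper57.PP

open Finset

theorem CE_step {W : Type} [DecidableEq W] {T R : Finset (Finset W)} {a z : W}
    {bs A B : List W} {y0 x yr : W} {mid : List W}
    (h : St T a z bs R (A ++ y0 :: x :: yr :: B))
    (hfan : cof R {x} = fan x (y0 :: (mid ++ [yr])))
    (hmid : ∀ y ∈ mid, y ∉ A ++ y0 :: x :: yr :: B) :
    ∀ y ∈ y0 :: (mid ++ [yr]), {x, y} ∈ edges T := by
  intro y hy
  simp only [List.mem_cons, List.mem_append, List.not_mem_nil, or_false] at hy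
  rcases hy with rfl | hy | rfl
  · apply h.pe_sub
    rw [mem_pe]
    exact ⟨A, y, x, yr :: B, rfl, Finset.pair_comm _ _⟩
  · obtain ⟨e, he, hye⟩ := exists_pe_of_mem (a := y0) (cs := mid) (z := yr) (v := y)
      (by unfold pth; simp [hy])
    have ht : insert x e ∈ cof R {x} := by
      rw [hfan]
      unfold fan
      exact mem_image_of_mem _ he
    rw [mem_edges]
    refine ⟨?_, insert x e, h.sub (mem_cof.1 ht).1, ?_⟩
    · rw [Finset.card_pair]
      rintro rfl
      exact hmid x hy (by simp)
    · intro w hw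
      simp only [mem_insert, mem_singleton] at hw ⊢
      rcases hw with rfl | rfl
      · exact Or.inl rfl
      · exact Or.inr hye
  · apply h.pe_sub
    rw [mem_pe]
    exact ⟨A ++ [y0], x, y, B, by simp, rfl⟩

theorem CE : CE_stmt := by
  intro W _ T R R' a z bs C C' σ h
  induction σ generalizing R C with
  | nil => intro s hs; simp at hs
  | cons s0 σ ih =>
    obtain ⟨A, B, hC, hSt, _, hnd, hfan, hmid, hrest⟩ := sw_cons h
    subst hC
    intro s hs
    rcases List.mem_cons.1 hs with rfl | hs
    · exact ⟨hnd, CE_step hSt hfan hmid⟩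
    · exact ih _ _ hrest s hs

end Pool.Agent.helper57.PP
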